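import Mathlib
import Pool.Agent.H32.Maz

open Set

namespace Pool.Agent.Results.MP_04172d_lc.EveryDirection

/-- `M` meets every line in exactly two points -/
def TwoPoint (M : Set (ℝ × ℝ)) : Prop := ∀ a b c : ℝ, a ≠ 0 ∨ b ≠ 0 →
  ∃ p q, p ≠ q ∧ M ∩ {r | a * r.1 + b * r.2 = c} = {p, q}

def graph (h : ℝ → ℝ) : Set (ℝ × ℝ) := {p | p.2 = h p.1}

/-- the graph is a basis of the plane over the rationals -/
def Hamel (h : ℝ → ℝ) : Prop :=
  LinearIndepOn ℚ id (graph h) ∧ Submodule.span ℚ (graph h) = ⊤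

/-- rotation about the origin -/
noncomputable def rot (θ : ℝ) (p : ℝ × ℝ) : ℝ × ℝ :=
  (Real.cos θ * p.1 - Real.sin θ * p.2, Real.sin θ * p.1 + Real.cos θ * p.2)

theorem result : ∃ M : Set (ℝ × ℝ), TwoPoint M ∧
    ∀ θ : ℝ, ∃ f, Hamel f ∧ graph f ⊆ rot θ '' M := by
  obtain ⟨M, hM, h⟩ := Pool.Agent.H32.Maz.main
  refine ⟨M, hM, fun θ => ?_⟩
  obtain ⟨f, h1, h2⟩ := h θ
  exact ⟨f true, h1 true, subset_union_left.trans h2.symm.subset⟩

end Pool.Agent.Results.MP_04172d_lc.EveryDirection
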